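import Pool.Agent.Q211.TP.Tyc

/-!
# A non-realcompact union of a sequence of z-embedded realcompact subspaces

The model is a symmetric extension of permutation type. The atoms are the pairs in `ℕ × ℤ`, the
group consists of the sequences of translations of the blocks `{n} × ℤ`, and the supports are the
finite unions of blocks. The space `X` is a linearly ordered space: the nodes `0, 1, 2, …`, and
between the nodes `n` and `n + 1` the block `n` in its natural order. The initial segment `A n` of
the points below the node `n` is countable and compact in the model, so it is realcompact, and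
continuous functions on `A n` extend to `X` (by a constant beyond the node `n`). Every continuous
real-valued function on `X` has a support that consists of the first `k` blocks, so it is constant
on all later blocks, and it is constant beyond the node `k` by continuity. Therefore the
coordinates of an embedding into a power of the real line converge along the nodes, and the image
is not closed.
-/

set_option autoImplicit false

namespace Pool.Agent.Results.MP_5f3c77_lc.RealcompactUnion

open Pool.Agent.W868 Pool.Agent.W868.PName Pool.Agent.Q211.SY Pool.Agent.Q211.FS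
open Pool.Agent.Q211.TP

/-- There is a countable transitive model of ZF with a Tychonoff space that is the union of a
sequence of realcompact `z`-embedded subspaces but is not realcompact. -/
theorem result : ∃ M : Set ZFSet.{0}, M.Countable ∧ IsZF M ∧
    ∃ R ∈ M, ∃ σ ∈ M, IsReals M R σ ∧
    ∃ X ∈ M, ∃ τ ∈ M, IsTopIn M X τ ∧ TychIn M R σ X τ ∧
      (∃ s ∈ M, ∃ A : ℕ → ZFSet.{0}, IsSeq s A ∧ (∀ z, z ∈ X ↔ ∃ n, z ∈ A n) ∧
        ∀ n, ECompactIn M R σ (A n) (subTop τ (A n)) ∧ ZEmb M R σ X τ (A n)) ∧
      ¬ ECompactIn M R σ X τ := by
  obtain ⟨M, X, τ, s, A, h⟩ := exists_uni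
  obtain ⟨R, hR, σ, hσ, hRσ⟩ := exists_line h.zf h.qc h.lq
  obtain ⟨i, hi⟩ := goodE_real h.zf h.qc h.lq hR hσ hRσ
  exact ⟨M, h.cnt, h.zf, R, hR, σ, hσ, hRσ, X, h.XM, τ, h.τM, h.top,
    tych_of_zeroDim h.zf h.qc h.lq hR hRσ h.XM h.τM h.top h.zd,
    ⟨s, h.sM, A, h.seq, h.un, fun n => ⟨h.cpt n _ _ _ hi,
      zEmb_of (fun z hz => (h.un z).2 ⟨n, hz⟩) (h.emb n _ _ hR)⟩⟩,
    h.not _ _ _ (flat_real hRσ) hi⟩

end Pool.Agent.Results.MP_5f3c77_lc.RealcompactUnion
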